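import Mathlib

/-!
# Perfect images of weakly theta-refinable spaces

Every perfect image of a weakly theta-refinable space is weakly theta-refinable.  No separation
axiom is used.
-/

namespace Pool.Agent.Results.MP_55e6a3_gt.PerfectImage

open Set Topology

universe u v

/-- A space is weakly theta-refinable if every open cover `U` has an open refinement which is a
union of countably many families `V n` such that every point `x` lies in at least one and only
finitely many members of some `V n`. -/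
def WeaklyThetaRefinable (X : Type u) [TopologicalSpace X] : Prop :=
  ∀ U : Set (Set X), (∀ u ∈ U, IsOpen u) → ⋃₀ U = Set.univ →
    ∃ V : ℕ → Set (Set X), (∀ n, ∀ v ∈ V n, IsOpen v ∧ ∃ u ∈ U, v ⊆ u) ∧
      ∀ x, ∃ n, {v | v ∈ V n ∧ x ∈ v}.Nonempty ∧ {v | v ∈ V n ∧ x ∈ v}.Finite

/-- The members of `A` that contain `x`. -/
def star {X : Type u} (A : Set (Set X)) (x : X) : Set (Set X) := {v | v ∈ A ∧ x ∈ v}

/-- The points lying in at least `m` members of `A`. -/
def Ge {X : Type u} (A : Set (Set X)) (m : ℕ) : Set X := {x | (m : ℕ∞) ≤ (star A x).encard}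

theorem isOpen_Ge {X : Type u} [TopologicalSpace X] {A : Set (Set X)} (hA : ∀ v ∈ A, IsOpen v)
    (m : ℕ) : IsOpen (Ge A m) := by
  rw [isOpen_iff_forall_mem_open]
  intro x hx
  obtain ⟨s, hs, hsm⟩ := Set.exists_subset_encard_eq (show (m : ℕ∞) ≤ (star A x).encard from hx)
  have hfin : s.Finite := Set.finite_of_encard_eq_coe hsm
  refine ⟨⋂₀ s, ?_, hfin.isOpen_sInter fun v hv => hA v (hs hv).1, fun v hv => (hs hv).2⟩
  intro x' hx'
  have h1 : s ⊆ star A x' := fun v hv => ⟨(hs hv).1, hx' v hv⟩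
  show (m : ℕ∞) ≤ (star A x').encard
  rw [← hsm]
  exact Set.encard_le_encard h1

theorem encard_eq_of {X : Type u} {A : Set (Set X)} {m : ℕ} {x : X} (h1 : x ∈ Ge A m)
    (h2 : x ∉ Ge A (m + 1)) : (star A x).encard = m := by
  have h3 : (m : ℕ∞) ≤ (star A x).encard := h1
  have h4 : ¬ (((m + 1 : ℕ) : ℕ∞) ≤ (star A x).encard) := h2
  refine le_antisymm ?_ h3
  have h5 := not_le.mp h4
  push_cast at h5
  exact Order.le_of_lt_add_one h5

/-- Greedy choice: a compact set `K` covered by the sets `D i ⊆ G i` with `G i` open contains a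
point `x ∈ D i` such that `K ⊆ G i ∪ ⋃ a ∈ F, G a` for a finite set `F` of indices with
`x ∉ G a` for all `a ∈ F`. -/
theorem exists_point {X : Type u} [TopologicalSpace X] {K : Set X} (hK : IsCompact K)
    (hne : K.Nonempty) (G D : ℕ → Set X) (hG : ∀ i, IsOpen (G i)) (hDG : ∀ i, D i ⊆ G i)
    (hD : ∀ x ∈ K, ∃ i, x ∈ D i) :
    ∃ x ∈ K, ∃ i, x ∈ D i ∧ ∃ F : Finset ℕ, (∀ a ∈ F, x ∉ G a) ∧
      K ⊆ (⋃ a ∈ F, G a) ∪ G i := by
  classical
  let T : ℕ → Finset ℕ := fun n => Nat.rec ∅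
    (fun i t => if K ⊆ ⋃ a ∈ insert i t, G a then t else insert i t) n
  have hT0 : T 0 = ∅ := rfl
  have hTs : ∀ i, T (i + 1) = if K ⊆ ⋃ a ∈ insert i (T i), G a then T i else insert i (T i) :=
    fun i => rfl
  have hinv : ∀ i, ¬ K ⊆ ⋃ a ∈ T i, G a := by
    intro i
    induction i with
    | zero =>
      intro h
      obtain ⟨x, hx⟩ := hne
      have := h hx
      rw [hT0] at this
      simp at this
    | succ i ih =>
      rw [hTs]
      split_ifs with h
      · exact ih
      · exact h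
  have hmono : Monotone T := by
    refine monotone_nat_of_le_succ fun i => ?_
    rw [hTs]
    split_ifs with h
    · exact le_rfl
    · exact Finset.subset_insert _ _
  have hx : ∃ x ∈ K, ∀ i, ∀ a ∈ T i, x ∉ G a := by
    by_contra hcon
    push Not at hcon
    have hcov : K ⊆ ⋃ i : ℕ, ⋃ a ∈ T i, G a := by
      intro x hx
      obtain ⟨i, a, ha, hxa⟩ := hcon x hx
      exact Set.mem_iUnion.mpr ⟨i, Set.mem_iUnion₂.mpr ⟨a, ha, hxa⟩⟩
    obtain ⟨i, hi⟩ := hK.elim_directed_cover (fun i : ℕ => ⋃ a ∈ T i, G a)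
      (fun i => isOpen_biUnion fun a _ => hG a) hcov
      (directed_of_isDirected_le fun i j hij => Set.biUnion_subset_biUnion_left (hmono hij))
    exact hinv i hi
  obtain ⟨x, hxK, hx⟩ := hx
  obtain ⟨i, hi⟩ := hD x hxK
  refine ⟨x, hxK, i, hi, T i, hx i, ?_⟩
  by_contra hcon
  have h1 : ¬ K ⊆ ⋃ a ∈ insert i (T i), G a := by
    intro h
    refine hcon fun z hz => ?_
    obtain ⟨a, ha, hza⟩ := Set.mem_iUnion₂.mp (h hz)
    rcases Finset.mem_insert.mp ha with rfl | ha
    · exact Or.inr hza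
    · exact Or.inl (Set.mem_iUnion₂.mpr ⟨a, ha, hza⟩)
  have h2 : i ∈ T (i + 1) := by
    rw [hTs, if_neg h1]
    exact Finset.mem_insert_self _ _
  exact hx (i + 1) i h2 (hDG i hi)

/-- The points of `Y` whose whole fibre lies in `A`. -/
def sharp {X : Type u} {Y : Type v} (f : X → Y) (A : Set X) : Set Y := {y | ∀ x, f x = y → x ∈ A}

theorem isOpen_sharp {X : Type u} {Y : Type v} [TopologicalSpace X] [TopologicalSpace Y]
    {f : X → Y} (hf : IsClosedMap f) {A : Set X} (hA : IsOpen A) : IsOpen (sharp f A) := by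
  have h : sharp f A = (f '' Aᶜ)ᶜ := by
    ext y
    constructor
    · rintro hy ⟨x, hx, rfl⟩
      exact hx (hy x rfl)
    · intro hy x hx
      by_contra hcon
      exact hy ⟨x, hcon, hx⟩
  rw [h]
  exact (hf _ hA.isClosed_compl).isOpen_compl

section Main

variable {X : Type u} {Y : Type v} [TopologicalSpace X] [TopologicalSpace Y]

/-- The traces on the fibre of `y` of the pieces of `{x | x ∉ H, x lies in exactly m members of A}`,
each piece being named by the set of members of `A` containing its points. -/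
def pieces (f : X → Y) (A : Set (Set X)) (H : Set X) (m : ℕ) (y : Y) : Set (Set (Set X)) :=
  star A '' {x | f x = y ∧ x ∉ H ∧ (star A x).encard = m}

/-- The open set of `X` attached to a set of pieces. -/
def nb (A : Set (Set X)) (H : Set X) (m : ℕ) (P : Set (Set (Set X))) : Set X :=
  (H ∪ Ge A (m + 1)) ∪ ⋃ S ∈ P, ⋂₀ S

theorem isOpen_nb {A : Set (Set X)} (hA : ∀ v ∈ A, IsOpen v) {H : Set X} (hH : IsOpen H) (m : ℕ)
    {P : Set (Set (Set X))} (hP : ∀ S ∈ P, S ⊆ A ∧ S.Finite) : IsOpen (nb A H m P) := by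
  refine (hH.union (isOpen_Ge hA _)).union (isOpen_biUnion fun S hS => ?_)
  exact (hP S hS).2.isOpen_sInter fun v hv => hA v ((hP S hS).1 hv)

omit [TopologicalSpace X] in
theorem star_eq {A : Set (Set X)} {m : ℕ} {S : Set (Set X)} (hSA : S ⊆ A) (hS : S.encard = m)
    {x : X} (hx : x ∈ ⋂₀ S) (hxm : (star A x).encard = m) : star A x = S := by
  have hfin : S.Finite := Set.finite_of_encard_eq_coe hS
  have hsub : S ⊆ star A x := fun v hv => ⟨hSA hv, hx v hv⟩
  refine (hfin.eq_of_subset_of_encard_le hsub ?_).symm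
  rw [hxm, hS]

omit [TopologicalSpace X] [TopologicalSpace Y] in
theorem pieces_prop {f : X → Y} {A : Set (Set X)} {H : Set X} {m : ℕ} {y : Y} {S : Set (Set X)}
    (hS : S ∈ pieces f A H m y) : S ⊆ A ∧ S.encard = m := by
  obtain ⟨x, ⟨-, -, hx⟩, rfl⟩ := hS
  exact ⟨fun v hv => hv.1, hx⟩

omit [TopologicalSpace X] [TopologicalSpace Y] in
theorem mem_sharp_nb {f : X → Y} {A : Set (Set X)} {H : Set X} {m : ℕ} {y : Y}
    (hy : y ∈ sharp f (H ∪ Ge A m)) : y ∈ sharp f (nb A H m (pieces f A H m y)) := by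
  intro x hx
  by_cases h1 : x ∈ H
  · exact Or.inl (Or.inl h1)
  by_cases h2 : x ∈ Ge A (m + 1)
  · exact Or.inl (Or.inr h2)
  refine Or.inr ?_
  have h3 : x ∈ Ge A m := (hy x hx).resolve_left h1
  refine Set.mem_iUnion₂.mpr ⟨star A x, ⟨x, ⟨hx, h1, encard_eq_of h3 h2⟩, rfl⟩, ?_⟩
  exact fun v hv => hv.2

omit [TopologicalSpace X] [TopologicalSpace Y] in
theorem pieces_subset {f : X → Y} {A : Set (Set X)} {H : Set X} {m : ℕ} {y : Y}
    {P : Set (Set (Set X))} (hP : ∀ S ∈ P, S ⊆ A ∧ S.encard = m)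
    (hy : y ∈ sharp f (nb A H m P)) : pieces f A H m y ⊆ P := by
  rintro _ ⟨x, ⟨hxy, hxH, hxm⟩, rfl⟩
  rcases hy x hxy with (h | h) | h
  · exact absurd h hxH
  · have h' : ((m + 1 : ℕ) : ℕ∞) ≤ (star A x).encard := h
    rw [hxm] at h'
    exact absurd (Nat.cast_le.mp h') (by omega)
  · obtain ⟨S, hS, hxS⟩ := Set.mem_iUnion₂.mp h
    rw [star_eq (hP S hS).1 (hP S hS).2 hxS hxm]
    exact hS

omit [TopologicalSpace Y] in
theorem pieces_finite {f : X → Y} (hK : ∀ y, IsCompact (f ⁻¹' {y})) {A : Set (Set X)}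
    (hA : ∀ v ∈ A, IsOpen v) {H : Set X} (hH : IsOpen H) {m : ℕ} {y : Y}
    (hy : y ∈ sharp f (H ∪ Ge A m)) : (pieces f A H m y).Finite := by
  classical
  have hop : ∀ S : pieces f A H m y, IsOpen (⋂₀ (S : Set (Set X))) := fun S =>
    (Set.finite_of_encard_eq_coe (pieces_prop S.2).2).isOpen_sInter
      fun v hv => hA v ((pieces_prop S.2).1 hv)
  have hopH : IsOpen (H ∪ Ge A (m + 1)) := hH.union (isOpen_Ge hA _)
  let c : Option (pieces f A H m y) → Set X := fun o =>
    Option.rec (H ∪ Ge A (m + 1)) (fun S => ⋂₀ (S : Set (Set X))) o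
  have hc : ∀ o, IsOpen (c o) := by
    rintro (_ | S)
    · exact hopH
    · exact hop S
  have hcov : f ⁻¹' {y} ⊆ ⋃ o, c o := by
    intro x hx
    rcases mem_sharp_nb hy x hx with h | h
    · exact Set.mem_iUnion.mpr ⟨none, h⟩
    · obtain ⟨S, hS, hxS⟩ := Set.mem_iUnion₂.mp h
      exact Set.mem_iUnion.mpr ⟨some ⟨S, hS⟩, hxS⟩
  obtain ⟨t, ht⟩ := (hK y).elim_finite_subcover c hc hcov
  have hfin : ((fun S : pieces f A H m y => (S : Set (Set X))) ''
      {S | some S ∈ t}).Finite := by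
    refine Set.Finite.image _ ?_
    refine Set.Finite.preimage (f := some) ?_ t.finite_toSet
    exact (Option.some_injective _).injOn
  refine hfin.subset ?_
  rintro _ ⟨x, ⟨hxy, hxH, hxm⟩, rfl⟩
  obtain ⟨o, ho, hxo⟩ := Set.mem_iUnion₂.mp (ht hxy)
  rcases o with _ | S
  · rcases hxo with h | h
    · exact absurd h hxH
    · have h' : ((m + 1 : ℕ) : ℕ∞) ≤ (star A x).encard := h
      rw [hxm] at h'
      exact absurd (Nat.cast_le.mp h') (by omega)
  · refine ⟨S, ho, ?_⟩
    exact (star_eq (pieces_prop S.2).1 (pieces_prop S.2).2 hxo hxm).symm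

end Main

/-- **Main theorem.** Every perfect image of a weakly theta-refinable space is weakly
theta-refinable. -/
theorem result (X : Type u) (Y : Type v) [TopologicalSpace X] [TopologicalSpace Y]
    (hX : WeaklyThetaRefinable X) (f : X → Y) (hf : Continuous f) (hs : Function.Surjective f)
    (hcl : IsClosedMap f) (hK : ∀ y, IsCompact (f ⁻¹' {y})) : WeaklyThetaRefinable Y := by
  classical
  intro U hU hUcov
  obtain ⟨V, hV, hVx⟩ := hX ((fun u => f ⁻¹' u) '' U)
    (by rintro _ ⟨u, hu, rfl⟩; exact (hU u hu).preimage hf)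
    (by
      refine Set.eq_univ_of_forall fun x => ?_
      have : f x ∈ ⋃₀ U := by rw [hUcov]; trivial
      obtain ⟨u, hu, hxu⟩ := this
      exact ⟨f ⁻¹' u, ⟨u, hu, rfl⟩, hxu⟩)
  have hVo : ∀ n, ∀ v ∈ V n, IsOpen v := fun n v hv => (hV n v hv).1
  -- the countable family of open sets
  let G : ℕ → Set X := fun i => Ge (V i.unpair.1) (i.unpair.2 + 1)
  have hG : ∀ i, IsOpen (G i) := fun i => isOpen_Ge (hVo _) _
  let H : Finset ℕ → Set X := fun F => ⋃ a ∈ F, G a
  have hH : ∀ F, IsOpen (H F) := fun F => isOpen_biUnion fun a _ => hG a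
  -- choice of a member of the cover for a set of pieces
  let Q : Set (Set (Set X)) → Set Y → Prop := fun P u => u ∈ U ∧ ∃ S ∈ P, ∃ v ∈ S, v ⊆ f ⁻¹' u
  let uu : Set (Set (Set X)) → Set Y := fun P => if h : ∃ u, Q P u then h.choose else ∅
  -- the families
  let W : Finset ℕ → ℕ → Set (Set (Set X)) → Set Y := fun F i P =>
    (sharp f (H F ∪ G i) ∩ sharp f (nb (V i.unpair.1) (H F) (i.unpair.2 + 1) P)) ∩ uu P
  let PP : Finset ℕ → ℕ → Y → Set (Set (Set X)) := fun F i y =>
    pieces f (V i.unpair.1) (H F) (i.unpair.2 + 1) y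
  have huu : ∀ F i y, (PP F i y).Nonempty → uu (PP F i y) ∈ U ∧ ∃ S ∈ PP F i y, ∃ v ∈ S,
      v ⊆ f ⁻¹' (uu (PP F i y)) := by
    intro F i y hne
    have hex : ∃ u, Q (PP F i y) u := by
      obtain ⟨S, hS⟩ := hne
      have hS2 := (pieces_prop hS).2
      have hS1 := (pieces_prop hS).1
      have hSne : S.Nonempty := by
        rw [← Set.encard_ne_zero, hS2]
        exact Nat.cast_ne_zero.mpr (Nat.succ_ne_zero (Nat.unpair i).2)
      obtain ⟨v, hv⟩ := hSne
      obtain ⟨-, u', ⟨u, hu, rfl⟩, hvu⟩ := hV _ v (hS1 hv)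
      exact ⟨u, hu, S, hS, v, hv, hvu⟩
    have h1 : uu (PP F i y) = hex.choose := dif_pos hex
    rw [h1]
    exact hex.choose_spec
  let Fam : Finset ℕ × ℕ × ℕ → Set (Set Y) := fun p =>
    {w | ∃ y, y ∈ sharp f (H p.1 ∪ G p.2.1) ∧ (PP p.1 p.2.1 y).Nonempty ∧
      (PP p.1 p.2.1 y).ncard = p.2.2 ∧ w = W p.1 p.2.1 (PP p.1 p.2.1 y)}
  refine ⟨fun k => Option.rec ∅ Fam (Encodable.decode (α := Finset ℕ × ℕ × ℕ) k), ?_, ?_⟩
  · intro k w hw
    rcases hd : Encodable.decode (α := Finset ℕ × ℕ × ℕ) k with _ | p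
    · simp only [hd] at hw
      exact absurd hw (Set.notMem_empty w)
    · simp only [hd] at hw
      obtain ⟨y, hy, hne, -, rfl⟩ := hw
      obtain ⟨h1, -⟩ := huu p.1 p.2.1 y hne
      refine ⟨?_, uu (PP p.1 p.2.1 y), h1, fun z hz => hz.2⟩
      refine ((isOpen_sharp hcl ((hH _).union (hG _))).inter
        (isOpen_sharp hcl (isOpen_nb (hVo _) (hH _) _ ?_))).inter (hU _ h1)
      intro S hS
      exact ⟨(pieces_prop hS).1, Set.finite_of_encard_eq_coe (pieces_prop hS).2⟩
  · intro y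
    obtain ⟨x, hxK, i, hxi, F, hxF, hKF⟩ := exists_point (hK y) (by
        obtain ⟨x, hx⟩ := hs y
        exact ⟨x, hx⟩) G (fun i => {x | (star (V i.unpair.1) x).encard = (i.unpair.2 + 1 : ℕ)}) hG
      (fun i x hx => le_of_eq (Eq.symm hx)) (by
        intro x _
        obtain ⟨n, hn1, hn2⟩ := hVx x
        have h1 : (star (V n) x).ncard ≠ 0 := by
          intro h0
          exact hn1.ne_empty ((Set.ncard_eq_zero hn2).mp h0)
        obtain ⟨m, hm⟩ := Nat.exists_eq_succ_of_ne_zero h1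
        refine ⟨Nat.pair n m, ?_⟩
        show (star (V (Nat.unpair (Nat.pair n m)).1) x).encard
          = ((Nat.unpair (Nat.pair n m)).2 + 1 : ℕ)
        rw [Nat.unpair_pair]
        show (star (V n) x).encard = (m + 1 : ℕ)
        rw [← Nat.succ_eq_add_one, ← hm]
        exact (Set.Finite.cast_ncard_eq hn2).symm)
    have hyO : y ∈ sharp f (H F ∪ G i) := fun z hz => hKF hz
    have hne : (PP F i y).Nonempty := by
      refine ⟨star (V i.unpair.1) x, x, ⟨hxK, ?_, hxi⟩, rfl⟩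
      intro hcon
      obtain ⟨a, ha, hxa⟩ := Set.mem_iUnion₂.mp hcon
      exact hxF a ha hxa
    have hfin : (PP F i y).Finite := pieces_finite hK (hVo _) (hH _) hyO
    refine ⟨Encodable.encode ((F, i, (PP F i y).ncard) : Finset ℕ × ℕ × ℕ), ?_⟩
    simp only [Encodable.encodek]
    have hmem : y ∈ W F i (PP F i y) := by
      refine ⟨⟨hyO, mem_sharp_nb hyO⟩, ?_⟩
      obtain ⟨-, S, hS, v, hv, hvu⟩ := huu F i y hne
      obtain ⟨z, ⟨hz, -, -⟩, rfl⟩ := hS
      have h3 : f z ∈ uu (PP F i y) := hvu hv.2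
      have h4 : f z = y := hz
      rwa [h4] at h3
    constructor
    · exact ⟨W F i (PP F i y), ⟨y, hyO, hne, rfl, rfl⟩, hmem⟩
    · refine (Set.finite_singleton (W F i (PP F i y))).subset ?_
      rintro w ⟨⟨y', hy', hne', hcard, rfl⟩, hyw⟩
      have hfin' : (PP F i y').Finite := pieces_finite hK (hVo _) (hH _) hy'
      have hsub : PP F i y ⊆ PP F i y' :=
        pieces_subset (fun S hS => pieces_prop hS) hyw.1.2
      have heq : PP F i y = PP F i y' :=
        Set.eq_of_subset_of_ncard_le hsub (le_of_eq hcard) hfin'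
      show W F i (PP F i y') = W F i (PP F i y)
      rw [heq]

end Pool.Agent.Results.MP_55e6a3_gt.PerfectImage
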